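import Pool.Agent.H.MP_332aa0_an.D

set_option autoImplicit false
open MeasureTheory ProbabilityTheory Finset Filter Topology
open scoped ENNReal

namespace Pool.Agent.Results.MP_332aa0_an.No

open Pool.Agent.H.MP_c47ae4_an Pool.Agent.H.MP_332aa0_an

/-- the logarithmic means `L_n f`; `harmonic n = 1 + 1/2 + ... + 1/n` -/
noncomputable def L (f : ℕ → G two → ℂ) (n : ℕ) (x : G two) : ℂ :=
  (∑ k ∈ range n, S two f k x / (n - k)) / harmonic n

/-- the weak `L_p` quasi-norm -/
noncomputable def wk (p : ℝ) (g : G two → ℂ) : ℝ≥0∞ :=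
  (⨆ t > 0, ENNReal.ofReal (t ^ p) * mu two {x | t < ‖g x‖}) ^ (1 / p)

/-- the modulus of continuity in `H_p` at `1 / 2 ^ n` -/
noncomputable def ω (p : ℝ) (f : ℕ → G two → ℂ) (n : ℕ) : ℝ≥0∞ :=
  nH two p fun k x => f k x - f (min k n) x

theorem result (p : ℝ) (p0 : 0 < p) (p1 : p ≤ 1) (f : ℕ → G two → ℂ)
    (hf : Martingale f (F two) (mu two)) (_hp : nH two p f < ∞)
    (hω : ∃ C : ℝ, ∀ᶠ n : ℕ in atTop, ω p f n ≤ ENNReal.ofReal
      (C * (Real.log n / (2 ^ (n * (1 / p - 1)) * Real.log n ^ (2 * ⌊p⌋₊))))) :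
    ∃ g : G two → ℂ, (∀ᵐ x ∂mu two, Tendsto (f · x) atTop (𝓝 (g x))) ∧
      Tendsto (fun k => wk p fun x => L f k x - g x) atTop (𝓝 0) := by
  obtain ⟨C, hC⟩ := hω
  have fd : ∀ n, dep n (f n) := fun n => dep_of (hf.stronglyMeasurable n)
  let c : ℕ → ℝ := fun n => |C| * (Real.log n / (2 ^ (n * (1 / p - 1)) * Real.log n ^ (2 * ⌊p⌋₊)))
  have c0 : ∀ n, 0 ≤ c n := fun n => by have := Real.log_natCast_nonneg n; positivity
  let Ω : ℕ → X → ℝ≥0∞ := fun n x => (⨆ k, ‖f k x - f (min k n) x‖ₑ) ^ p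
  have fm : ∀ n, Measurable (f n) := fun n => ((hf.stronglyMeasurable n).mono ((F two).le n)).measurable
  have Ωm : ∀ n, Measurable (Ω n) := fun n => by fun_prop
  have J : ∀ᶠ n in atTop, ∫⁻ x, Ω n x ∂ν ≤ ENNReal.ofReal (c n ^ p) := hC.mono fun n h => by
    rw [← ENNReal.ofReal_rpow_of_nonneg (c0 n) p0.le, ← ENNReal.rpow_inv_le_iff p0, ← one_div]
    have := Real.log_natCast_nonneg n
    exact h.trans (ENNReal.ofReal_le_ofReal (mul_le_mul_of_nonneg_right (le_abs_self C) (by positivity)))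
  have Ωl : ∀ n j x, n ≤ j → ‖f j x - f n x‖ₑ ^ p ≤ Ω n x := fun n j x h => ENNReal.rpow_le_rpow
    (le_iSup_of_le j (by rw [min_eq_right h])) p0.le
  have J' : ∀ᶠ n in atTop, ∀ j ≥ n, ∫ z, ‖f j z - f n z‖ ^ p ∂ν ≤ c n ^ p := J.mono fun n h j hj => by
    refine (ENNReal.ofReal_le_ofReal_iff (by have := c0 n; positivity)).1 (le_trans ?_ h)
    rw [ofReal_integral_eq_lintegral_ofReal (dep2 (‖· - ·‖ ^ p) (fd j) ((fd n).mono hj)).int
      (.of_forall fun _ => by positivity)]
    refine lintegral_mono fun x => le_of_eq_of_le ?_ (Ωl n j x hj)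
    rw [← ENNReal.ofReal_rpow_of_nonneg (norm_nonneg _) p0.le, ofReal_norm]
  have ct : Tendsto c atTop (𝓝 0) := by
    rw [← mul_zero |C|]
    refine .const_mul _ ?_
    rcases p1.lt_or_eq with h | rfl
    · have r : (1 : ℝ) < 2 ^ (1 / p - 1) := Real.one_lt_rpow one_lt_two (sub_pos.2 (one_lt_one_div p0 h))
      refine squeeze_zero (fun n => by have := Real.log_natCast_nonneg n; positivity) (fun n => ?_)
        (tendsto_pow_const_div_const_pow_of_one_lt 1 r)
      rw [Nat.floor_eq_zero.2 h, mul_comm (n : ℝ), Real.rpow_mul_natCast zero_le_two]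
      simp only [mul_zero, pow_zero, mul_one, pow_one]
      gcongr
      exact Real.log_le_self n.cast_nonneg
    · refine ((Real.tendsto_log_atTop.comp tendsto_natCast_atTop_atTop).inv_tendsto_atTop).congr
        fun n => ?_
      simp [sq]
  have cp : Tendsto (fun n => c n ^ p) atTop (𝓝 0) := by
    simpa [p0.ne'] using ct.rpow_const (p := p) (.inr p0.le)
  have ae : ∀ᵐ x ∂ν, Tendsto (f · x) atTop (𝓝 (limUnder atTop (f · x))) := by
    have : ∫⁻ x, ⨅ n, Ω n x ∂ν = 0 := le_zero_iff.1 (ge_of_tendsto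
      (by simpa using ENNReal.tendsto_ofReal cp)
      (J.mono fun n h => (lintegral_mono fun x => iInf_le _ n).trans h))
    filter_upwards [(lintegral_eq_zero_iff (.iInf Ωm)).1 this] with x hx
    refine CauchySeq.tendsto_limUnder (Metric.cauchySeq_iff'.2 fun ε hε => ?_)
    obtain ⟨n, hn⟩ := iInf_lt_iff.1 (hx.trans_lt (ENNReal.rpow_pos_of_nonneg
      (ENNReal.ofReal_pos.2 hε) p0.le))
    refine ⟨n, fun j hj => ?_⟩
    have := (ENNReal.rpow_lt_rpow_iff p0).1 ((Ωl n j x hj).trans_lt hn)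
    rwa [← ofReal_norm, ENNReal.ofReal_lt_ofReal_iff hε, ← dist_eq_norm] at this
  refine ⟨_, ae, ?_⟩
  rw [← ENNReal.zero_rpow_of_pos (one_div_pos.2 p0)]
  refine (ENNReal.continuous_rpow_const.tendsto 0).comp (ENNReal.tendsto_nhds_zero.2 fun ε hε => ?_)
  obtain ⟨δ, δ0, hδ⟩ : ∃ δ : ℝ, 0 < δ ∧ ENNReal.ofReal (2 * (δ + δ)) ≤ ε := by
    obtain ⟨r, -, a, b⟩ := ENNReal.lt_iff_exists_real_btwn.1 hε
    exact ⟨r / 4, by simpa using a, le_of_eq_of_le (by congr 1; ring) b.le⟩
  have K := key p0 p1 fd (C := 2 * |C| ^ p) (by positivity) (fun h => J'.mono fun m a => by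
    have l := Real.log_natCast_nonneg m
    refine (mul_le_mul_of_nonneg_left (a _ m.le_succ) (by positivity)).trans ?_
    simp only [c, Nat.floor_eq_zero.2 h, mul_zero, pow_zero, mul_one]
    rw [Real.mul_rpow (by positivity) (by positivity), Real.div_rpow l (by positivity),
      ← Real.rpow_mul zero_le_two, show m * (1 / p - 1) * p = m * (1 - p) by field_simp,
      Real.rpow_natCast_mul zero_le_two, pow_succ, Real.mul_rpow (by positivity) zero_le_two]
    calc _ = 2 ^ (1 - p) * |C| ^ p * Real.log m ^ p := by field_simp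
      _ ≤ _ := by gcongr; exact Real.rpow_le_self_of_one_le one_le_two (by linarith))
    (fun ε hε => ((J'.and (cp.eventually_le_const hε)).exists).imp fun M h j hj => (h.1 j hj).trans h.2) δ0
  filter_upwards [K, lgt.eventually J, lgt.eventually (cp.eventually_le_const δ0),
    eventually_ge_atTop 1] with k a b d k1
  refine iSup₂_le fun t t0 => ?_
  obtain ⟨Ψ, i, n, e, h⟩ := a (t / 2) (by positivity)
  have kl : k ≤ 2 ^ lg k := (Nat.lt_pow_succ_log_self one_lt_two k).le
  have m1 := i.aemeasurable.ennreal_ofReal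
  refine le_trans ?_ ((mul_meas_ge_le_lintegral₀ ((m1.add (Ωm (lg k)).aemeasurable).const_mul 2)
    (ENNReal.ofReal (t ^ p))).trans (le_trans ?_ hδ))
  · refine mul_le_mul_right (measure_mono_ae (ae.mono fun x hx (o : t < _) => ?_)) _
    have eT : T k (lg k) (f (lg k)) x = f (lg k) x - L f k x := by
      rw [T_eq (fd _) kl, L, sum_div]
      simp only [mul_sub, sum_sub_distrib, ← sum_mul, ← Complex.ofReal_sum, s1 k1, Complex.ofReal_one,
        one_mul, sub_right_inj]
      refine sum_congr rfl fun j hj => ?_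
      rw [S, sum_congr rfl fun q hq => show hat (f (lg k)) q * w q x = coef two f q * psi two q x by
        rw [coef_eq hf (L := lg k) (by rw [M2]; have := mem_range.1 hq; have := mem_range.1 hj; omega)]
        rfl, s, Nat.cast_sub (mem_range.1 hj).le]
      push_cast; ring
    have tp : ENNReal.ofReal (t ^ p) ≤ 2 * ENNReal.ofReal ((t / 2) ^ p) := by
      rw [← ENNReal.ofReal_ofNat, ← ENNReal.ofReal_mul zero_le_two]
      refine ENNReal.ofReal_le_ofReal ?_
      nth_rw 1 [show t = 2 * (t / 2) by ring]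
      rw [Real.mul_rpow zero_le_two (by positivity)]
      gcongr
      exact Real.rpow_le_self_of_one_le one_le_two p1
    refine tp.trans (mul_le_mul_right ?_ _)
    rcases lt_or_ge (t / 2) ‖T k (lg k) (f (lg k)) x‖ with u | u
    · exact (ENNReal.ofReal_le_ofReal (h x u)).trans le_self_add
    rw [eT, norm_sub_rev] at u
    have v : t / 2 < ‖limUnder atTop (f · x) - f (lg k) x‖ := by
      rw [norm_sub_rev]
      linarith [norm_sub_le_norm_sub_add_norm_sub (L f k x) (f (lg k) x) (limUnder atTop (f · x))]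
    obtain ⟨j, j1, j2⟩ := ((((hx.sub_const _).norm).eventually_const_lt v).and
      (eventually_ge_atTop (lg k))).exists
    refine le_add_left (le_trans ?_ (Ωl _ j x j2))
    rw [← ofReal_norm, ENNReal.ofReal_rpow_of_nonneg (norm_nonneg _) p0.le]
    gcongr
  simp only [Pi.add_apply]
  rw [lintegral_const_mul' _ _ (by simp), lintegral_add_left' m1, ENNReal.ofReal_mul zero_le_two,
    ENNReal.ofReal_add δ0.le δ0.le, ← ofReal_integral_eq_lintegral_ofReal i (.of_forall n)]
  simp only [ENNReal.ofReal_ofNat]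
  gcongr
  exact b.trans (ENNReal.ofReal_le_ofReal d)

end Pool.Agent.Results.MP_332aa0_an.No
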